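import Mathlib
import Pool.Agent.H.MP_337eac_co.MC

set_option autoImplicit false

namespace Pool.Agent.Results.MP_602553_lc.Binary

/-- Structures on `Fin n` for the vocabulary with `u` unary and `b` binary relation symbols. -/
abbrev Str (u b n : ℕ) := (Fin u → Fin n → Prop) × (Fin b → Fin n → Fin n → Prop)

/-- Closure under isomorphism and induced substructures. -/
def Hereditary {u b : ℕ} (C : ∀ n, Str u b n → Prop) : Prop :=
  ∀ (m n : ℕ) (g : Fin m → Fin n) (A : Str u b n), Function.Injective g → C n A →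
    C m (fun i x => A.1 i (g x), fun i x y => A.2 i (g x) (g y))

/-- The Specker function. -/
noncomputable def Sp {u b : ℕ} (C : ∀ n, Str u b n → Prop) (n : ℕ) : ℕ := {A | C n A}.ncard

def MCFinite (s : ℕ → ℤ) : Prop :=
  ∀ m : ℕ, 1 ≤ m → ∃ r p : ℕ, 1 ≤ r ∧ 1 ≤ p ∧ ∃ α : Fin (p + 1) → ℤ, ∀ n, r ≤ n →
    s (n + p + 1) ≡ ∑ i : Fin (p + 1), α i * s (n + i) [ZMOD m]

theorem result (u b : ℕ) (hb : 1 ≤ b) : ∃ C : ∀ n, Str u b n → Prop,
    Hereditary C ∧ ¬ MCFinite fun n => Sp C n := by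
  obtain ⟨C, h1, h2⟩ := Pool.Agent.H.MP_337eac_co.exists_class
  let ι : ∀ n, SimpleGraph (Fin n) → Str u b n := fun n G => (fun _ _ => False, fun _ => G.Adj)
  have hi : ∀ n, Function.Injective (ι n) := fun n G H e =>
    SimpleGraph.ext (congrFun (congrArg Prod.snd e) ⟨0, hb⟩)
  refine ⟨fun n A => A ∈ ι n '' {G | C n G}, ?_, fun h => h2 ?_⟩
  · rintro m n g _ hg ⟨G, hG, rfl⟩
    exact ⟨G.comap g, h1 m n g _ G ⟨hg, fun _ _ h => h⟩ hG, rfl⟩
  · obtain ⟨r, p, -, -, h⟩ := h 2 (by omega)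
    simp only [Sp, Set.setOf_mem_eq, Set.ncard_image_of_injective _ (hi _)] at h
    exact ⟨r, p + 1, h⟩

end Pool.Agent.Results.MP_602553_lc.Binary
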